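import Mathlib
import Pool.Agent.Helper734.IB.Finals

/-!
# Star bodies that are homothetic to their iterated intersection body of integer order

For `n ≥ 4` and every integer `2 ≤ i ≤ n - 2`, a star body `L` of `ℝⁿ` for which `I_i (I_i L)` is a
dilate of `L` (or a translate of a dilate, if `L` is centred) is a centred ball.
-/

set_option autoImplicit false

namespace Pool.Agent.Results.MP_f3a9fd_gt.IntegerOrders

open MeasureTheory Set Metric

section Defs

variable {E : Type*} [NormedAddCommGroup E] [InnerProductSpace ℝ E]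

/-- The radial function `ρ_L(u) = sup {c ≥ 0 : c u ∈ L}`. -/
noncomputable def radial (L : Set E) (u : E) : ℝ := sSup {c : ℝ | 0 ≤ c ∧ c • u ∈ L}

/-- A star body: a compact set, star-shaped with respect to the origin, whose radial function is
continuous on the unit sphere. -/
structure IsStarBody (L : Set E) : Prop where
  compact : IsCompact L
  zero_mem : (0 : E) ∈ L
  star : StarConvex ℝ 0 L
  cont : ContinuousOn (radial L) (sphere (0 : E) 1)

/-- The hyperplane `u^⊥`. -/
noncomputable def hyperplane (u : E) : Submodule ℝ E := (Submodule.span ℝ {u})ᗮ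

variable [FiniteDimensional ℝ E] [MeasurableSpace E] [BorelSpace E]

/-- The spherical Lebesgue measure on the unit sphere of the hyperplane `u^⊥`. -/
noncomputable def sphereMeasure (u : E) : Measure (sphere (0 : hyperplane u) 1) :=
  (volume : Measure (hyperplane u)).toSphere

/-- The radial function of the intersection body of order `i`:
`(1 / (n - 1)) ∫ ρ_L(v) ^ i dv`, the integral being taken over the unit sphere of the hyperplane
`u^⊥` with respect to its spherical Lebesgue measure; `n` is the dimension of the space. -/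
noncomputable def orderRadial (i : ℝ) (L : Set E) (u : E) : ℝ :=
  1 / ((Module.finrank ℝ E : ℝ) - 1) *
    ∫ v, (radial L ((v : hyperplane u) : E)) ^ i ∂(sphereMeasure u)

/-- The intersection body of order `i`: the star-shaped set with radial function
`orderRadial i L`. -/
def intersectionBody (i : ℝ) (L : Set E) : Set E :=
  {x | ∃ u ∈ sphere (0 : E) 1, ∃ c : ℝ, 0 ≤ c ∧ c ≤ orderRadial i L u ∧ x = c • u}

end Defs

theorem orderRadial_eq {n : ℕ} (i : ℝ) (L : Set (EuclideanSpace ℝ (Fin n)))
    (u : EuclideanSpace ℝ (Fin n)) : orderRadial i L u = Helper734.IB.ordRadial i L u := by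
  unfold orderRadial Helper734.IB.ordRadial sphereMeasure
  rw [finrank_euclideanSpace_fin]
  rfl

theorem intersectionBody_eq {n : ℕ} (i : ℝ) (L : Set (EuclideanSpace ℝ (Fin n))) :
    intersectionBody i L = Helper734.IB.IBody i L := by
  unfold intersectionBody Helper734.IB.IBody
  simp only [orderRadial_eq]

/-- Sanity check: `orderRadial i L` is the radial function of `intersectionBody i L`. -/
theorem radial_intersectionBody {n : ℕ} (hn : 1 ≤ n) (i : ℝ)
    (L : Set (EuclideanSpace ℝ (Fin n))) (u : EuclideanSpace ℝ (Fin n)) (hu : ‖u‖ = 1) :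
    radial (intersectionBody i L) u = orderRadial i L u := by
  rw [intersectionBody_eq, orderRadial_eq]
  exact Helper734.IB.radial_IBody hn i L u hu

/-- Sanity check: centred balls are star bodies. -/
theorem isStarBody_ball {n : ℕ} (R : ℝ) (hR : 0 ≤ R) :
    IsStarBody (closedBall (0 : EuclideanSpace ℝ (Fin n)) R) :=
  have h := (Helper734.IB.ball_star (F := EuclideanSpace ℝ (Fin n)) R hR).1
  ⟨h.compact, h.zero_mem, h.star, h.cont⟩

/-- Let `2 ≤ i ≤ n - 2` be an integer and let `L` be a star body in `ℝⁿ`.  Then
`I_i (I_i L) = x + r L` for some `r > 0` and some `x`, where `x = 0` or `L = -L`, if and only if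
`L` is a centred ball. -/
theorem result {n i : ℕ} (hi : 2 ≤ i) (hin : i + 2 ≤ n)
    (L : Set (EuclideanSpace ℝ (Fin n))) (hL : IsStarBody L) :
    (∃ (x : EuclideanSpace ℝ (Fin n)) (r : ℝ), 0 < r ∧ (x = 0 ∨ ∀ y ∈ L, -y ∈ L) ∧
      intersectionBody i (intersectionBody i L) = (fun z => x + r • z) '' L) ↔
    ∃ R : ℝ, 0 ≤ R ∧ L = closedBall 0 R := by
  have hL' : Helper734.IB.IsStarBody L := ⟨hL.compact, hL.zero_mem, hL.star, hL.cont⟩
  have key := Helper734.IB.final2 hi hin L hL'
  simp only [intersectionBody_eq]
  constructor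
  · rintro ⟨x, r, hr, hx, h⟩
    rcases hx with rfl | hs
    · refine key.1.1 ⟨r, hr, ?_⟩
      rw [h]; simp
    · exact (key.2 hs).1 ⟨x, r, hr, h⟩
  · intro h
    obtain ⟨r, hr, h2⟩ := key.1.2 h
    refine ⟨0, r, hr, Or.inl rfl, ?_⟩
    rw [h2]; simp

end Pool.Agent.Results.MP_f3a9fd_gt.IntegerOrders
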